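import Pool.Agent.H7.ME.Stmts

/-!
# Larger cliques: the extremal graph has `Δ + a + 1` vertices: board `ng` (MP_fd41b2_co)

`b = p + 3 = ω - 1`, `t = w + 3`, `Δ = (p + 3) a + r`, `N = Δ + a + 1`. The theorem FNT of `ia13` / `me17` / `kc15` with a graph on exactly `N` vertices, and
for `r = ω - 3` (`r = p + 1`) with the number of its cliques. `PrX` contains `PrV` of `kc15` and `PrT` of `me17`. Row `XXX` = `def XXXStmt : Prop`;
file `Pool/Agent/H<k>/NG/XXX.lean`, `import Pool.Agent.H7.NG.Stmts`, namespace `Pool.NG7`, `open Pool.Agent.H23.KT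
Pool.Agent.H46.KW Pool.KQ Pool.GT7 Pool.GU7 Pool.HZ7 Pool.IA7`. CQX, NTX, NVX, RFX, MNX are copies of CQT, NTS, NVT, RFT, MNT of `me17` (with
`PrX`).
-/

set_option autoImplicit false

open Finset

namespace Pool.NG7

open Pool.Agent.H23.KT Pool.Agent.H46.KW Pool.KQ Pool.GT7 Pool.GU7 Pool.HZ7 Pool.IA7

/-- Conditions. -/
structure PrX (p w r : ℕ) : Prop where
  w1 : 1 ≤ w
  wp : w ≤ p
  rb : p + 3 ≤ 2 * r
  rp : r ≤ p + 1
  p2 : 2 ≤ p

/-- A graph with many `t`-cliques has a core. -/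
def BK (p w r : ℕ) : Prop :=
  ∃ C : ℝ, 0 < C ∧ ∃ a₀ : ℕ, ∀ a ≥ a₀,
    ∀ {V : Type} [Fintype V] [DecidableEq V] (G : SimpleGraph V), G8 G p r a → Nonempty V →
    kt p w r a * Fintype.card V ≤
      kc G univ (w + 3) * ((((p + 3) * a + r + a + 1 : ℕ)) : ℝ) →
    ∃ Q, Cor G p r a C Q

/-- The graph `H` has degrees at most `Δ` and no clique with `p + 5` vertices. -/
def Adm (p r a : ℕ) {m : ℕ} (H : SimpleGraph (Fin m)) : Prop :=
  (∀ v, (H.neighborSet v).ncard ≤ (p + 3) * a + r) ∧ H.CliqueFree (p + 5)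

/-- The number of cliques with `w + 3` vertices. -/
noncomputable def nc (w : ℕ) {m : ℕ} (H : SimpleGraph (Fin m)) : ℕ :=
  {s : Finset (Fin m) | H.IsNClique (w + 3) s}.ncard

/-- The number of `t`-cliques for `r = p + 1`: `p + 2` parts with `a + 1` vertices and two parts with `a`
vertices, minus a perfect matching between these two. -/
def nx2 (p w a : ℕ) : ℕ :=
  (p + 2).choose (w + 3) * (a + 1) ^ (w + 3) + 2 * a * ((p + 2).choose (w + 2) * (a + 1) ^ (w + 2)) +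
    a * (a - 1) * ((p + 2).choose (w + 1) * (a + 1) ^ (w + 1))

/-- (CQX) As CQT of `me17`. -/
def CQXStmt : Prop :=
  ∀ p w r : ℕ, PrX p w r → ∀ K₀ : ℕ, ∃ K : ℝ, 0 < K ∧ ∃ a₀ : ℕ, ∀ a ≥ a₀,
    ∀ {V : Type} [Fintype V] [DecidableEq V] (G : SimpleGraph V) (Q : Fin (p + 4) → Finset V)
    (σ : Fin (p + 4) → ℕ), G8 G p r a → Par G Q → (∀ j, σ j ≤ K₀) →
    (∀ j, (Q j).card ≤ a + K₀) →
    (∀ j, ∀ u ∈ Q j, ∑ k ∈ univ.erase j, (non G (Q k) u).card = σ j + dl G p r a (un Q) u) →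
    (∀ u ∈ un Q, (nb G (univ \ un Q) u).card ≤ dl G p r a (un Q) u) →
    (∀ u ∈ un Q, (dl G p r a (un Q) u : ℝ) ≤ a / (11 * ((p : ℝ) + 3))) →
    ((∑ u ∈ un Q, dl G p r a (un Q) u : ℕ) : ℝ) ≤ K₀ * a →
    (kc G univ (w + 3) : ℝ) - kc G (univ \ un Q) (w + 3) - kc G (un Q) (w + 3) +
        (p + 1).choose w * (a : ℝ) ^ w *
          ∑ j, ∑ u ∈ Q j, ((∑ k ∈ univ.erase j, (non G (Q k) u).card : ℕ) : ℝ) ^ 2 +
        1 / 10 * c1 p w * (a : ℝ) ^ (w + 1) * ∑ u ∈ un Q, (dl G p r a (un Q) u : ℝ) ≤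
      1 / 2 * c1 p w * (a : ℝ) ^ (w + 1) * ∑ u ∈ un Q, (dl G p r a (un Q) u : ℝ) +
        K * (a : ℝ) ^ (w + 1)

/-- (NTX) As NTS of `me17`. -/
def NTXStmt : Prop :=
  ∀ p w r : ℕ, PrX p w r → ∀ K : ℕ, ∀ K₁ : ℝ, 0 < K₁ → ∃ K₂ : ℝ, 0 < K₂ ∧ ∃ a₀ : ℕ, ∀ a ≥ a₀,
    ∀ s, 1 ≤ s → s ≤ K → ∀ n σ : Fin (p + 4) → ℕ, (∀ j, n j + σ j = a + s) → (∀ j, σ j ≤ K) →
    ∑ j, σ j + r = (p + 3) * s →
    (s = 1 → Yt p w a K₁ n σ ≤ kt p w r a + K₂ * (a : ℝ) ^ (w + 1)) ∧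
    (2 ≤ s → Yt p w a K₁ n σ * ((((p + 3) * a + r + a + 1 : ℕ)) : ℝ) ≤
      kt p w r a * ((((p + 3) * a + r + a + s : ℕ)) : ℝ))

/-- (NVX) As NVT of `me17`. -/
def NVXStmt : Prop :=
  ∀ p w r : ℕ, PrX p w r → ∃ K : ℝ, 0 < K ∧ ∃ a₀ : ℕ, ∀ a ≥ a₀, 0 < kt p w r a ∧
    (TT (p + 3) (w + 2) a r : ℝ) * ((((p + 3) * a + r + a + 1 : ℕ)) : ℝ) -
        ((w : ℝ) + 3) * kt p w r a ≤
      (ltt p w r * (a : ℝ) ^ (w + 1) + K * (a : ℝ) ^ w) * ((((p + 3) * a + r + a + 1 : ℕ)) : ℝ)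

/-- (RFX) As RFT of `me17`. -/
def RFXStmt : Prop :=
  ∀ p w r a : ℕ, PrX p w r → 1 ≤ a → ∃ R : SimpleGraph (Fin ((p + 3) * a + r + a + 1)),
    (∀ v, (R.neighborSet v).ncard ≤ (p + 3) * a + r) ∧ R.CliqueFree (p + 5) ∧
    kt p w r a ≤
      ({s : Finset (Fin ((p + 3) * a + r + a + 1)) | R.IsNClique (w + 3) s}.ncard : ℝ)

/-- (MNX) As MNT of `me17`; in the second alternative `s = 1`, so `(un Q).card = N`. Needs DLC (`Pool.ME7.DLCStmt`), KBT, CRT, CQX, CST, AUG, MOD, NTX. -/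
def MNXStmt : Prop :=
  ∀ p w r : ℕ, PrX p w r → ∀ C : ℝ, 0 < C → ∃ a₀ : ℕ, ∀ a ≥ a₀,
    ∀ {V : Type} [Fintype V] [DecidableEq V] (G : SimpleGraph V) (Q : Fin (p + 4) → Finset V),
    G8 G p r a → Cor G p r a C Q → (un Q).Nonempty ∧ (un Q).card ≤ (p + 5) * a ∧
    (((kc G univ (w + 3) : ℝ) - kc G (univ \ un Q) (w + 3)) *
        ((((p + 3) * a + r + a + 1 : ℕ)) : ℝ) ≤ kt p w r a * (un Q).card ∨
      (un Q).card = (p + 3) * a + r + a + 1 ∧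
      ∃ G' : SimpleGraph V, (∀ u ∈ un Q, (nb G' (un Q) u).card ≤ (p + 3) * a + r) ∧
        CB G' (un Q) (p + 4) ∧
        (kc G univ (w + 3) : ℝ) - kc G (univ \ un Q) (w + 3) ≤ kc G' (un Q) (w + 3))

/-- (FNQ) The theorem with `N` vertices. Needs MNX, RFX, NVX. PROOF. As FNT, but `R` = a graph with the most `(w+3)`-cliques among the graphs on `Fin N` with `Adm` (finitely many;
nonempty by RFX, so `kt ≤ nc w R`). For all finite `V`, `G8 G p r a`: `kc G univ (w+3) * N ≤ nc w R * card V` by strong induction on `card V`: if not, `BK` and MNX give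
`S = un Q` with `cl * N ≤ nc w R * card S` (first alternative: `cl * N ≤ kt * card S`; second: `card S = N`, `G'` on `S` is isomorphic to a graph on `Fin N`, `cl ≤ nc w R`); delete `S`. -/
def FNQStmt : Prop :=
  ∀ p w r : ℕ, PrX p w r → BK p w r → ∃ a₀ : ℕ, ∀ a ≥ a₀,
    ∃ R : SimpleGraph (Fin ((p + 3) * a + r + a + 1)), Adm p r a R ∧
      (∀ R' : SimpleGraph (Fin ((p + 3) * a + r + a + 1)), Adm p r a R' → nc w R' ≤ nc w R) ∧
      ∀ (m : ℕ) (H : SimpleGraph (Fin m)), Adm p r a H →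
        nc w H * ((p + 3) * a + r + a + 1) ≤ nc w R * m

/-- (XDM) The structure of the best graph on `N` vertices. Needs DLC (`Pool.ME7.DLCStmt`), KBT, CRT, CQX, AUG, MOD, NTX, RFX. PROOF. `kt ≤ nc w R` (RFX, `R` best), so `BK` gives a core `Q` of `R`, DLC
gives `s`, `σ`; `card (un Q) = Δ + a + s ≤ N`, so `s = 1` and `un Q = univ` (`univ \\ un Q = ∅` has no clique). `D = ∑ dl`. As in MNX: `kc R univ (w+3) ≤ kt + K₂ a^(w+1) - (1/10) c₁ a^(w+1) D`, so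
`D < M := 10 K₂/c₁ + 1`, otherwise `kc R univ (w+3) < kt ≤ nc w R`. If `2 ≤ D < M`: AUG and MOD give `G'` on the same vertices with more cliques, `Adm` (degrees `≤ Δ - δ u + δ u`; `Par G' Q`: no
clique with `p + 5` vertices as there are `p + 4` independent parts), against the choice of `R`. -/
def XDMStmt : Prop :=
  ∀ p w r : ℕ, PrX p w r → BK p w r → ∃ a₀ : ℕ, ∀ a ≥ a₀,
    ∀ R : SimpleGraph (Fin ((p + 3) * a + r + a + 1)), Adm p r a R →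
      (∀ R' : SimpleGraph (Fin ((p + 3) * a + r + a + 1)), Adm p r a R' → nc w R' ≤ nc w R) →
      ∃ (Q : Fin (p + 4) → Finset (Fin ((p + 3) * a + r + a + 1))) (σ : Fin (p + 4) → ℕ),
        Par R Q ∧ un Q = univ ∧ (∀ j, (Q j).card + σ j = a + 1) ∧ ∑ j, σ j + r = p + 3 ∧
        (∀ j, ∀ u ∈ Q j, ∑ k ∈ univ.erase j, (non R (Q k) u).card =
          σ j + dl R p r a (un Q) u) ∧ ∑ u ∈ un Q, dl R p r a (un Q) u ≤ 1

/-- (XCO) The number of cliques for `r = p + 1`. `H` = the missing pairs (nonadjacent, different parts), `h u = σ j + δ u` (`u ∈ Q j`), `∑ σ = 2`, `D = ∑ δ ≤ 1`. PROOF. If `σ k = 2` then all other `σ` are `0` and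
`2 (a - 1) ≤ ∑_(u ∈ Q k) h u ≤ ∑_(u ∉ Q k) h u = ∑_(u ∉ Q k) δ u ≤ 1`, impossible. So `σ k = σ l = 1`, `k ≠ l`, the others `0`. `∑_u h u = 2 a + D` is even (each missing pair is counted twice), so `D = 0`: `h = 1` on
`Q k ∪ Q l` (each has `a` vertices), `h = 0` elsewhere: the missing pairs are a perfect matching between `Q k` and `Q l`, all other pairs in different parts are edges. A `(w+3)`-clique has `0`, `1` or `2` vertices in
`Q k ∪ Q l` (`1`, `2 a`, `a^2 - a` possibilities) and the others in different parts of the `p + 2` other parts (all combinations). -/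
def XCOStmt : Prop :=
  ∀ p w a : ℕ, 1 ≤ w → w ≤ p → 3 ≤ a →
    ∀ {V : Type} [Fintype V] [DecidableEq V] (G : SimpleGraph V) (Q : Fin (p + 4) → Finset V)
    (σ : Fin (p + 4) → ℕ) (δ : V → ℕ), Par G Q → (∀ j, (Q j).card + σ j = a + 1) →
    ∑ j, σ j = 2 →
    (∀ j, ∀ u ∈ Q j, ∑ k ∈ univ.erase j, (non G (Q k) u).card = σ j + δ u) →
    ∑ u ∈ un Q, δ u ≤ 1 →
    kc G (un Q) (w + 3) = nx2 p w a

/-- (CMQ) Together. Needs FNQ, XDM, XCO, `Pool.KC7.BKJStmt`, `Pool.ME7.BKTStmt`. PROOF. `r ≤ p`: `PrJ`, except `w = 1`, `p ≤ 5`, where `PrT` of `Pool.ME7` holds (as `Pool.KC7.CMBStmt`); `r = p + 1`: `PrT`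
of `Pool.ME7` (as `Pool.ME7.CMFStmt`). Both give `PrX` and `BK`. `r = p + 1`: XDM and XCO for the `R` of FNQ. -/
def CMQStmt : Prop :=
  FNQStmt → XDMStmt → XCOStmt → Pool.KC7.BKJStmt → Pool.ME7.BKTStmt →
    ∀ p w r : ℕ, 2 ≤ p → 1 ≤ w → w ≤ p → r ≤ p + 1 →
    (w + 1) * (p + 3 - r) < 2 * r →
    2 * r * (w + 3) * (r - 1).choose (w + 1) +
      (w + 2) * (w + 1) * (p + 3 - r) * (p + 2).choose (w + 1) <
        2 * r * (w + 3) * (p + 2).choose (w + 1) →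
    ∃ a₀ : ℕ, ∀ a ≥ a₀, ∃ R : SimpleGraph (Fin ((p + 3) * a + r + a + 1)), Adm p r a R ∧
      (r = p + 1 → nc w R = nx2 p w a) ∧
      ∀ (m : ℕ) (H : SimpleGraph (Fin m)), Adm p r a H →
        nc w H * ((p + 3) * a + r + a + 1) ≤ nc w R * m

end Pool.NG7
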